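import Mathlib

/-! ZPT block D: existence and uniqueness of derivations of a field of characteristic zero. -/

namespace Pool.Agent.ZPT

open scoped TensorProduct

/-- Derivations extend along formally etale algebras. -/
theorem der_ext (R S T : Type*) [CommRing R] [CommRing S] [CommRing T] [Algebra R S] [Algebra R T]
    [Algebra S T] [IsScalarTower R S T] [Algebra.FormallyEtale S T] (d : Derivation R S T) :
    ∃ d' : Derivation R T T, ∀ s, d' (algebraMap S T s) = d s := by
  let l : T ⊗[S] (Ω[S⁄R]) →ₗ[T] T := LinearMap.liftBaseChange T d.liftKaehlerDifferential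
  let e := KaehlerDifferential.tensorKaehlerEquivOfFormallyEtale R S T
  refine ⟨(l ∘ₗ e.symm.toLinearMap).compDer (KaehlerDifferential.D R T), fun s => ?_⟩
  have h := KaehlerDifferential.tensorKaehlerEquivOfFormallyEtale_symm_D_algebraMap R S T s
  refine (congrArg l h).trans ?_
  simp [l, LinearMap.liftBaseChange_tmul]

/-- A field of characteristic zero algebraic over a domain is formally etale over it. -/
theorem fe_of_alg (A K : Type*) [CommRing A] [IsDomain A] [Field K] [CharZero K] [Algebra A K]
    [FaithfulSMul A K] [Algebra.IsAlgebraic A K] : Algebra.FormallyEtale A K := by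
  let := FractionRing.liftAlgebra A K
  have : IsScalarTower A (FractionRing A) K := FractionRing.isScalarTower_liftAlgebra A K
  have : Algebra.IsAlgebraic (FractionRing A) K :=
    (IsFractionRing.comap_isAlgebraic_iff (A := A) (K := FractionRing A) (C := K)).mp inferInstance
  have : CharZero (FractionRing A) := by
    refine ⟨fun m n h => ?_⟩
    have := congrArg (algebraMap (FractionRing A) K) h
    simpa using this
  have : Algebra.FormallyEtale A (FractionRing A) :=
    Algebra.FormallyEtale.of_isLocalization (nonZeroDivisors A)
  have : Algebra.FormallyEtale (FractionRing A) K := Algebra.FormallyEtale.of_isSeparable _ _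
  exact Algebra.FormallyEtale.comp A (FractionRing A) K

/-- Derivations with prescribed values on a transcendence basis. -/
theorem der_exists {M K : Type*} [Field M] [Field K] [CharZero K] [Algebra M K] {τ : Type*}
    (X : τ → K) (hX : IsTranscendenceBasis M X) (g : τ → K) :
    ∃ d : Derivation M K K, ∀ t, d (X t) = g t := by
  let : Algebra (MvPolynomial τ M) K := (MvPolynomial.aeval X).toAlgebra
  have hmap : ∀ p, algebraMap (MvPolynomial τ M) K p = MvPolynomial.aeval X p := fun p => rfl
  have : IsScalarTower M (MvPolynomial τ M) K := IsScalarTower.of_algebraMap_eq fun a => by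
    rw [hmap]; simp
  have : FaithfulSMul (MvPolynomial τ M) K := by
    rw [faithfulSMul_iff_algebraMap_injective]
    exact hX.1
  have : Algebra.IsAlgebraic (MvPolynomial τ M) K := by
    have h := hX.isAlgebraic
    refine Algebra.IsAlgebraic.of_ringHom_of_comp_eq (f := hX.1.aevalEquiv) (g := RingHom.id K)
      hX.1.aevalEquiv.surjective Function.injective_id ?_
    ext p
    · simp [hmap]
    · simp [hmap]
  have := fe_of_alg (MvPolynomial τ M) K
  obtain ⟨d', hd'⟩ := der_ext M (MvPolynomial τ M) K (MvPolynomial.mkDerivation M g)
  refine ⟨d', fun t => ?_⟩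
  have := hd' (MvPolynomial.X t)
  rw [hmap, MvPolynomial.aeval_X] at this
  rw [this, MvPolynomial.mkDerivation_X]

/-- A derivation which vanishes on a subfield vanishes on its algebraic closure. -/
theorem der_alg {K : Type*} [Field K] [CharZero K] {V : Type*} [AddCommGroup V] [Module K V]
    (N : Subfield K) (d : Derivation ℤ K V) (h : ∀ a ∈ N, d a = 0) (y : K)
    (hy : IsAlgebraic N y) : d y = 0 := by
  let d' : Derivation N K V :=
    { toFun := d
      map_add' := d.map_add
      map_smul' := fun a z => by
        have : a • z = (a : K) * z := rfl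
        simp only [this, Derivation.leibniz, h a a.2, smul_zero, add_zero, RingHom.id_apply]
        rfl
      map_one_eq_zero' := d.map_one_eq_zero
      leibniz' := fun a b => d.leibniz a b }
  have hy' : IsIntegral N y := hy.isIntegral
  have h1 := d'.map_aeval (minpoly N y) y
  rw [minpoly.aeval, map_zero] at h1
  have h2 : Polynomial.aeval y (Polynomial.derivative (minpoly N y)) ≠ 0 := by
    intro h0
    have h3 := minpoly.degree_le_of_ne_zero N y (p := Polynomial.derivative (minpoly N y)) ?_ h0
    · exact absurd h3 (not_le.mpr (Polynomial.degree_derivative_lt (minpoly.ne_zero hy')))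
    · intro h4
      have := Polynomial.derivative_eq_zero.mp h4
      exact absurd this (minpoly.natDegree_pos hy').ne'
  exact (smul_eq_zero.mp h1.symm).resolve_left h2

end Pool.Agent.ZPT
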